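import Pool.Agent.W254.LF.Stm

/-! # LF-LAU: the place at infinity -/

set_option autoImplicit false

namespace Pool.Agent.W239.LF

open Polynomial

noncomputable section

/-! ## Hensel's lemma for polynomials which need not be monic (the proof of Mathlib) -/

theorem hensel (R : Type*) [CommRing R] (I : Ideal R) [IsAdicComplete I R] (f : R[X]) (a₀ : R)
    (h₁ : f.eval a₀ ∈ I) (h₂ : IsUnit (Ideal.Quotient.mk I (f.derivative.eval a₀))) :
    ∃ a : R, f.IsRoot a ∧ a - a₀ ∈ I := by
  classical
  let f' := derivative f
  let c : ℕ → R := fun n => Nat.recOn n a₀ fun _ b => b - f.eval b * Ring.inverse (f'.eval b)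
  have hc : ∀ n, c (n + 1) = c n - f.eval (c n) * Ring.inverse (f'.eval (c n)) := by
    intro n
    simp only [c]
  have hc_mod : ∀ n, c n ≡ a₀ [SMOD I] := by
    intro n
    induction n with
    | zero => rfl
    | succ n ih => ?_
    rw [hc, sub_eq_add_neg, ← add_zero a₀]
    refine ih.add ?_
    rw [SModEq.zero, Ideal.neg_mem_iff]
    refine I.mul_mem_right _ ?_
    rw [← SModEq.zero] at h₁ ⊢
    exact (ih.eval f).trans h₁
  have hf'c : ∀ n, IsUnit (f'.eval (c n)) := by
    intro n
    have := isLocalHom_of_le_jacobson_bot I (IsAdicComplete.le_jacobson_bot I)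
    apply IsUnit.of_map (Ideal.Quotient.mk I)
    convert! h₂ using 1
    exact SModEq.def.mp ((hc_mod n).eval _)
  have hfcI : ∀ n, f.eval (c n) ∈ I ^ (n + 1) := by
    intro n
    induction n with
    | zero => simpa only [Nat.rec_zero, zero_add, pow_one] using! h₁
    | succ n ih => ?_
    rw [← taylor_eval_sub (c n), hc, sub_eq_add_neg, sub_eq_add_neg,
      add_neg_cancel_comm]
    rw [eval_eq_sum, sum_over_range' _ _ _ (lt_add_of_pos_right _ zero_lt_two), ←
      Finset.sum_range_add_sum_Ico _ (Nat.le_add_left _ _)]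
    swap
    · intro i
      rw [zero_mul]
    refine Ideal.add_mem _ ?_ ?_
    · rw [← one_add_one_eq_two, Finset.sum_range_succ, Finset.range_one, Finset.sum_singleton,
        taylor_coeff_zero, taylor_coeff_one, pow_zero, pow_one, mul_one, mul_neg,
        mul_left_comm, Ring.mul_inverse_cancel _ (hf'c n), mul_one, add_neg_cancel]
      exact Ideal.zero_mem _
    · refine Submodule.sum_mem _ ?_
      simp only [Finset.mem_Ico]
      rintro i ⟨h2i, _⟩
      have aux : n + 2 ≤ i * (n + 1) := by trans 2 * (n + 1) <;> nlinarith only [h2i]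
      refine Ideal.mul_mem_left _ _ (Ideal.pow_le_pow_right aux ?_)
      rw [pow_mul']
      exact Ideal.pow_mem_pow ((Ideal.neg_mem_iff _).2 <| Ideal.mul_mem_right _ _ ih) _
  have aux : ∀ m n, m ≤ n → c m ≡ c n [SMOD (I ^ m • ⊤ : Ideal R)] := by
    intro m n hmn
    rw [← Ideal.one_eq_top, Ideal.smul_eq_mul, mul_one]
    obtain ⟨k, rfl⟩ := Nat.exists_eq_add_of_le hmn
    clear hmn
    induction k with
    | zero => rw [add_zero]
    | succ k ih => ?_
    rw [← add_assoc, hc, ← add_zero (c m), sub_eq_add_neg]
    refine ih.add ?_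
    symm
    rw [SModEq.zero, Ideal.neg_mem_iff]
    refine Ideal.mul_mem_right _ _ (Ideal.pow_le_pow_right ?_ (hfcI _))
    rw [add_assoc]
    exact le_self_add
  obtain ⟨a, ha⟩ := IsPrecomplete.prec' c (aux _ _)
  refine ⟨a, ?_, ?_⟩
  · show f.IsRoot a
    suffices ∀ n, f.eval a ≡ 0 [SMOD (I ^ n • ⊤ : Ideal R)] by exact IsHausdorff.haus' _ this
    intro n
    specialize ha n
    rw [← Ideal.one_eq_top, Ideal.smul_eq_mul, mul_one] at ha ⊢
    refine (ha.symm.eval f).trans ?_
    rw [SModEq.zero]
    exact Ideal.pow_le_pow_right le_self_add (hfcI _)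
  · show a - a₀ ∈ I
    specialize ha (0 + 1)
    rw [hc, pow_one, ← Ideal.one_eq_top, Ideal.smul_eq_mul, mul_one, sub_eq_add_neg] at ha
    rw [← SModEq.sub_mem, ← add_zero a₀]
    refine ha.symm.trans (SModEq.rfl.add ?_)
    rw [SModEq.zero, Ideal.neg_mem_iff]
    exact Ideal.mul_mem_right _ _ h₁

/-- Hensel's lemma for power series. -/
theorem henselPS {K : Type} [Field K] (f : (PowerSeries K)[X]) (a : K)
    (h₁ : PowerSeries.constantCoeff (f.eval (PowerSeries.C a)) = 0)
    (h₂ : (f.map (PowerSeries.constantCoeff (R := K))).derivative.eval a ≠ 0) :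
    ∃ y : PowerSeries K, f.IsRoot y ∧ PowerSeries.constantCoeff y = a := by
  have e : PowerSeries.constantCoeff (f.derivative.eval (PowerSeries.C a)) =
      (f.map (PowerSeries.constantCoeff (R := K))).derivative.eval a := by
    have h := Polynomial.eval₂_at_apply (p := f.derivative)
      (PowerSeries.constantCoeff (R := K)) (PowerSeries.C a)
    rw [PowerSeries.constantCoeff_C] at h
    rw [← h, Polynomial.derivative_map, Polynomial.eval_map]
  obtain ⟨y, hy, hy'⟩ := hensel (PowerSeries K) (Ideal.span {PowerSeries.X}) f (PowerSeries.C a)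
    (by rw [Ideal.mem_span_singleton, PowerSeries.X_dvd_iff]; exact h₁)
    (by
      apply IsUnit.map
      rw [PowerSeries.isUnit_iff_constantCoeff, e]
      exact isUnit_iff_ne_zero.2 h₂)
  refine ⟨y, hy, ?_⟩
  rw [Ideal.mem_span_singleton, PowerSeries.X_dvd_iff, map_sub, PowerSeries.constantCoeff_C,
    sub_eq_zero] at hy'
  exact hy'

/-! ## The derivation `z d/dz` -/

attribute [-instance] HahnSeries.powerSeriesAlgebra

variable (K : Type) [Field K]

/-- `z d/dz` on Laurent series. -/
def thL : LaurentSeries K →ₗ[K] LaurentSeries K where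
  toFun f := ⟨fun n => (n : K) * f.coeff n, f.isPWO_support.mono (by
    intro n hn
    rw [Function.mem_support] at hn
    exact fun h => hn (by rw [h, mul_zero]))⟩
  map_add' f g := by
    ext n
    simp [mul_add]
  map_smul' r f := by
    ext n
    simp only [HahnSeries.coeff_smul, RingHom.id_apply, smul_eq_mul]
    ring

theorem thL_coeff (f : LaurentSeries K) (n : ℤ) : (thL K f).coeff n = (n : K) * f.coeff n := rfl

theorem thL_supp (f : LaurentSeries K) : (thL K f).support ⊆ f.support := by
  intro n hn
  rw [HahnSeries.mem_support, thL_coeff] at hn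
  rw [HahnSeries.mem_support]
  exact fun h => hn (by rw [h, mul_zero])

/-- The derivation `z d/dz`. -/
def th : Derivation K (LaurentSeries K) (LaurentSeries K) :=
  Derivation.mk' (thL K) (by
    intro a b
    ext n
    rw [thL_coeff, smul_eq_mul, smul_eq_mul, HahnSeries.coeff_add, HahnSeries.coeff_mul,
      HahnSeries.coeff_mul_right' b.isPWO_support (thL_supp K b), mul_comm b (thL K a),
      HahnSeries.coeff_mul_left' a.isPWO_support (thL_supp K a), ← Finset.sum_add_distrib,
      Finset.mul_sum]
    apply Finset.sum_congr rfl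
    intro ij hij
    rw [Finset.mem_antidiagonal] at hij
    rw [thL_coeff, thL_coeff, ← hij.2.2]
    push_cast
    ring)

theorem th_coeff (f : LaurentSeries K) (n : ℤ) : (th K f).coeff n = (n : K) * f.coeff n := rfl

/-- `z d/dz` on power series. -/
def tp (p : PowerSeries K) : PowerSeries K := PowerSeries.mk fun n => (n : K) * PowerSeries.coeff n p

/-- The embedding of power series. -/
abbrev co : PowerSeries K →+* LaurentSeries K := HahnSeries.ofPowerSeries ℤ K

theorem co_coeff_neg (p : PowerSeries K) (n : ℤ) (hn : n < 0) : (co K p).coeff n = 0 := by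
  rw [HahnSeries.ofPowerSeries_apply]
  apply HahnSeries.embDomain_of_notMem_range
  rintro ⟨m, hm⟩
  have : (m : ℤ) = n := hm
  omega

theorem co_coeff (p : PowerSeries K) (n : ℕ) : (co K p).coeff n = PowerSeries.coeff n p :=
  HahnSeries.ofPowerSeries_apply_coeff p n

theorem th_co (p : PowerSeries K) : th K (co K p) = co K (tp K p) := by
  ext n
  rw [th_coeff]
  rcases lt_or_ge n 0 with hn | hn
  · rw [co_coeff_neg K p n hn, co_coeff_neg K _ n hn, mul_zero]
  · obtain ⟨m, rfl⟩ := Int.eq_ofNat_of_zero_le hn
    rw [co_coeff, co_coeff, tp, PowerSeries.coeff_mk]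
    push_cast
    rfl

theorem tp_const (p : PowerSeries K) : PowerSeries.constantCoeff (tp K p) = 0 := by
  rw [← PowerSeries.coeff_zero_eq_constantCoeff_apply, tp, PowerSeries.coeff_mk]
  simp

theorem tp_X_mul (p : PowerSeries K) :
    tp K (PowerSeries.X * p) = PowerSeries.X * (p + tp K p) := by
  ext n
  rw [tp, PowerSeries.coeff_mk]
  rcases n with _ | n
  · simp
  · rw [PowerSeries.coeff_succ_X_mul, PowerSeries.coeff_succ_X_mul, map_add, tp,
      PowerSeries.coeff_mk]
    push_cast
    ring

theorem tp_add (p q : PowerSeries K) : tp K (p + q) = tp K p + tp K q := by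
  ext n
  simp [tp, mul_add]

theorem tp_C (a : K) : tp K (PowerSeries.C a) = 0 := by
  ext n
  rw [tp, PowerSeries.coeff_mk, PowerSeries.coeff_C]
  split_ifs with h
  · subst h; simp
  · simp

/-! ## Derivation, residue -/

/-- The derivation `- z ^ 2 d/dz`. -/
def DL : Derivation K (LaurentSeries K) (LaurentSeries K) :=
  (-(HahnSeries.single (1 : ℤ) (1 : K))) • th K

theorem DL_apply (f : LaurentSeries K) : DL K f = -(co K PowerSeries.X * th K f) := by
  rw [DL, Derivation.smul_apply, smul_eq_mul, neg_mul, HahnSeries.ofPowerSeries_X]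

theorem DL_co (p : PowerSeries K) : DL K (co K p) = -(co K (PowerSeries.X * tp K p)) := by
  rw [DL_apply, th_co, map_mul]

/-- The residue. -/
def rs : LaurentSeries K →ₗ[K] K where
  toFun f := f.coeff 1
  map_add' f g := by simp
  map_smul' r f := by simp

theorem rs_apply (f : LaurentSeries K) : rs K f = f.coeff 1 := rfl

theorem rs_co (p : PowerSeries K) : rs K (co K p) = PowerSeries.coeff 1 p := by
  rw [rs_apply]
  exact co_coeff K p 1

theorem rs_DL (f : LaurentSeries K) : rs K (DL K f) = 0 := by
  rw [rs_apply, DL_apply, HahnSeries.ofPowerSeries_X, HahnSeries.coeff_neg,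
    HahnSeries.coeff_single_mul, th_coeff]
  simp

theorem alg_eq (c : K) : algebraMap K (LaurentSeries K) c = co K (PowerSeries.C c) := by
  rw [HahnSeries.ofPowerSeries_C, HahnSeries.algebraMap_apply]
  rfl

theorem tL_mul : HahnSeries.single (-1 : ℤ) (1 : K) * co K PowerSeries.X = 1 := by
  rw [HahnSeries.ofPowerSeries_X, HahnSeries.single_mul_single]
  simp

/-! ## The roots -/

theorem roots (m : ℕ) (α : Fin m → K) (hα : Function.Injective α) (j : Fin m) :
    ∃ y : PowerSeries K, PowerSeries.constantCoeff y = α j ∧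
      (PowerSeries.X * y - 1) * ∏ i, (y - PowerSeries.C (α i)) = PowerSeries.X := by
  set F : (PowerSeries K)[X] := (C PowerSeries.X * X - 1) *
    (∏ i, (X - C (PowerSeries.C (α i)))) - C PowerSeries.X with hF
  have hmap : F.map (PowerSeries.constantCoeff (R := K)) = -∏ i, (X - C (α i)) := by
    rw [hF]
    simp [Polynomial.map_prod]
  have hev : ∀ y : PowerSeries K, F.eval y =
      (PowerSeries.X * y - 1) * (∏ i, (y - PowerSeries.C (α i))) - PowerSeries.X := by
    intro y
    rw [hF]
    simp [Polynomial.eval_prod]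
  obtain ⟨y, hy, hy'⟩ := henselPS F (α j)
    (by
      rw [hev, Finset.prod_eq_zero (Finset.mem_univ j) (sub_self _)]
      simp)
    (by
      rw [hmap, Polynomial.derivative_neg, Polynomial.eval_neg, neg_ne_zero]
      have hs : (∏ i, (X - C (α i))).Separable := Polynomial.separable_prod_X_sub_C_iff.2 hα
      have h0 : (∏ i, (X - C (α i))).eval₂ (RingHom.id K) (α j) = 0 := by
        rw [Polynomial.eval₂_id, Polynomial.eval_prod]
        exact Finset.prod_eq_zero (Finset.mem_univ j) (by simp)
      have := hs.eval₂_derivative_ne_zero (RingHom.id K) h0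
      rwa [Polynomial.eval₂_id] at this)
  refine ⟨y, hy', ?_⟩
  rw [Polynomial.IsRoot, hev, sub_eq_zero] at hy
  exact hy

theorem root_last (m : ℕ) (α : Fin m → K) :
    ∃ u : PowerSeries K, PowerSeries.constantCoeff u = 1 ∧
      (u - 1) * ∏ i, (u - PowerSeries.X * PowerSeries.C (α i)) = PowerSeries.X ^ (m + 1) := by
  set H : (PowerSeries K)[X] := (X - 1) *
    (∏ i, (X - C (PowerSeries.X * PowerSeries.C (α i)))) - C (PowerSeries.X ^ (m + 1)) with hH
  have hmap : H.map (PowerSeries.constantCoeff (R := K)) = (X - 1) * X ^ m := by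
    rw [hH]
    simp [Polynomial.map_prod]
  have hev : ∀ y : PowerSeries K, H.eval y =
      (y - 1) * (∏ i, (y - PowerSeries.X * PowerSeries.C (α i))) - PowerSeries.X ^ (m + 1) := by
    intro y
    rw [hH]
    simp [Polynomial.eval_prod]
  obtain ⟨y, hy, hy'⟩ := henselPS H 1
    (by
      rw [hev]
      simp)
    (by
      rw [hmap]
      simp)
  refine ⟨y, hy', ?_⟩
  rw [Polynomial.IsRoot, hev, sub_eq_zero] at hy
  exact hy

/-! ## The main theorem -/

theorem t_LAU : Pool.Agent.W254.LF.S_LAU := by
  intro K _ _ m α hα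
  choose y hy0 hy using roots K m α hα
  obtain ⟨u, hu0, hu⟩ := root_last K m α
  set tL : LaurentSeries K := HahnSeries.single (-1 : ℤ) (1 : K) with htL
  set z : LaurentSeries K := co K PowerSeries.X with hz
  have htz : tL * z = 1 := tL_mul K
  have hz0 : z ≠ 0 := right_ne_zero_of_mul_eq_one htz
  refine ⟨LaurentSeries K, inferInstance, inferInstance, DL K, tL, rs K,
    Fin.snoc (fun j => co K (y j)) (tL * co K u), ?_, rs_DL K, ?_, ?_, ?_⟩
  · -- DL tL = 1
    rw [DL_apply]
    ext n
    rw [HahnSeries.coeff_neg, HahnSeries.ofPowerSeries_X, HahnSeries.coeff_single_mul, th_coeff,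
      htL, HahnSeries.coeff_single, HahnSeries.coeff_one]
    by_cases hn : n = 0
    · subst hn; simp
    · rw [if_neg hn, if_neg (by omega)]; simp
  · -- injective
    have hlast : ∀ j : Fin m, co K (y j) ≠ tL * co K u := by
      intro j h
      have h1 : (co K (y j)).coeff (-1) = (tL * co K u).coeff (-1) := by rw [h]
      rw [co_coeff_neg K _ _ (by norm_num), htL, HahnSeries.coeff_single_mul] at h1
      have h2 := co_coeff K u 0
      rw [PowerSeries.coeff_zero_eq_constantCoeff_apply, hu0] at h2
      simp only [Nat.cast_zero] at h2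
      rw [sub_self, h2] at h1
      simp at h1
    intro a b
    refine Fin.lastCases ?_ (fun i => ?_) a <;> refine Fin.lastCases ?_ (fun j => ?_) b
    · intro _; rfl
    · intro h
      rw [Fin.snoc_last, Fin.snoc_castSucc] at h
      exact absurd h.symm (hlast j)
    · intro h
      rw [Fin.snoc_last, Fin.snoc_castSucc] at h
      exact absurd h (hlast i)
    · intro h
      rw [Fin.snoc_castSucc, Fin.snoc_castSucc] at h
      have h1 := HahnSeries.ofPowerSeries_injective h
      have h2 : α i = α j := by rw [← hy0 i, ← hy0 j, h1]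
      rw [hα h2]
  · -- equation
    intro j
    refine Fin.lastCases ?_ (fun j => ?_) j
    · rw [Fin.snoc_last]
      have e1 : ∀ i, tL * co K u - algebraMap K (LaurentSeries K) (α i) =
          tL * co K (u - PowerSeries.X * PowerSeries.C (α i)) := by
        intro i
        rw [alg_eq, map_sub, map_mul, mul_sub, ← mul_assoc, htz, one_mul]
      have e2 : tL * co K u - tL = tL * co K (u - 1) := by
        rw [map_sub, map_one, mul_sub, mul_one]
      simp only [e1]
      rw [e2, Finset.prod_mul_distrib, Finset.prod_const, Finset.card_univ, Fintype.card_fin,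
        ← map_prod]
      have h3 := congrArg (co K) hu
      rw [map_mul, map_pow, ← hz] at h3
      calc tL * co K (u - 1) * (tL ^ m * co K (∏ i, (u - PowerSeries.X * PowerSeries.C (α i))))
          = tL ^ (m + 1) * (co K (u - 1) *
              co K (∏ i, (u - PowerSeries.X * PowerSeries.C (α i)))) := by ring
        _ = (tL * z) ^ (m + 1) := by rw [h3, mul_pow]
        _ = 1 := by rw [htz, one_pow]
    · rw [Fin.snoc_castSucc]
      apply mul_left_cancel₀ hz0
      rw [mul_one, ← mul_assoc, mul_sub, mul_comm z tL, htz]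
      have h3 := congrArg (co K) (hy j)
      simp only [map_mul, map_sub, map_one, map_prod] at h3
      simp only [alg_eq]
      exact h3
  · -- residues
    intro i j
    rw [Fin.snoc_castSucc, DL_co, alg_eq, ← map_sub, neg_div, map_neg]
    split_ifs with hij
    · subst hij
      -- y - α = X * v
      obtain ⟨v, hv⟩ : PowerSeries.X ∣ y i - PowerSeries.C (α i) := by
        rw [PowerSeries.X_dvd_iff, map_sub, hy0, PowerSeries.constantCoeff_C, sub_self]
      have hv1 : PowerSeries.constantCoeff v ≠ 0 := by
        have h4 := hy i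
        rw [← Finset.mul_prod_erase _ _ (Finset.mem_univ i), hv] at h4
        have h5 : PowerSeries.X * ((PowerSeries.X * y i - 1) * (v *
            ∏ k ∈ Finset.univ.erase i, (y i - PowerSeries.C (α k)))) = PowerSeries.X * 1 := by
          rw [mul_one]
          calc _ = (PowerSeries.X * y i - 1) * (PowerSeries.X * v *
            ∏ k ∈ Finset.univ.erase i, (y i - PowerSeries.C (α k))) := by ring
            _ = _ := h4
        have h6 := mul_left_cancel₀ PowerSeries.X_ne_zero h5
        intro h7
        have h8 := congrArg (PowerSeries.constantCoeff (R := K)) h6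
        rw [map_mul, map_mul, h7, map_one] at h8
        simp at h8
      have hvv : v * v⁻¹ = 1 := PowerSeries.mul_inv_cancel v hv1
      have hyi : y i = PowerSeries.C (α i) + PowerSeries.X * v := by rw [← hv]; ring
      have h9 : PowerSeries.X * tp K (y i) =
          (y i - PowerSeries.C (α i)) * (PowerSeries.X * ((v + tp K v) * v⁻¹)) := by
        rw [hv, hyi, tp_add, tp_C, zero_add, tp_X_mul]
        calc PowerSeries.X * (PowerSeries.X * (v + tp K v))
            = PowerSeries.X * (PowerSeries.X * (v + tp K v)) * 1 := by ring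
          _ = PowerSeries.X * (PowerSeries.X * (v + tp K v)) * (v * v⁻¹) := by rw [hvv]
          _ = _ := by ring
      have hne : co K (y i - PowerSeries.C (α i)) ≠ 0 := by
        rw [hv, map_mul]
        refine mul_ne_zero hz0 ?_
        intro h
        have := HahnSeries.ofPowerSeries_injective (h.trans (map_zero (co K)).symm)
        rw [this, map_zero] at hv1
        exact hv1 rfl
      rw [h9, map_mul, mul_div_cancel_left₀ _ hne, rs_co]
      have h10 : PowerSeries.coeff 1 (PowerSeries.X * ((v + tp K v) * v⁻¹)) = 1 := by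
        rw [show (1 : ℕ) = 0 + 1 from rfl, PowerSeries.coeff_succ_X_mul,
          PowerSeries.coeff_zero_eq_constantCoeff_apply, map_mul, map_add, tp_const, add_zero,
          ← map_mul, hvv, map_one]
      rw [h10]
    · -- unit
      set w := y j - PowerSeries.C (α i) with hw
      have hw1 : PowerSeries.constantCoeff w ≠ 0 := by
        rw [hw, map_sub, hy0, PowerSeries.constantCoeff_C, sub_ne_zero]
        exact fun h => hij (hα h).symm
      have hww : w * w⁻¹ = 1 := PowerSeries.mul_inv_cancel w hw1
      have h9 : PowerSeries.X * tp K (y j) = w * (PowerSeries.X * (tp K (y j) * w⁻¹)) := by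
        calc PowerSeries.X * tp K (y j) = PowerSeries.X * tp K (y j) * 1 := by ring
          _ = PowerSeries.X * tp K (y j) * (w * w⁻¹) := by rw [hww]
          _ = _ := by ring
      have hne : co K w ≠ 0 := by
        intro h
        have := HahnSeries.ofPowerSeries_injective (h.trans (map_zero (co K)).symm)
        rw [this, map_zero] at hw1
        exact hw1 rfl
      rw [h9, map_mul, mul_div_cancel_left₀ _ hne, rs_co, show (1 : ℕ) = 0 + 1 from rfl,
        PowerSeries.coeff_succ_X_mul, PowerSeries.coeff_zero_eq_constantCoeff_apply, map_mul,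
        tp_const, zero_mul, neg_zero]

end

end Pool.Agent.W239.LF
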